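import Pool.Agent.Helper95.PM.Stmts
import Pool.Agent.Helper21.PW.Tls

/-!
PM, row CUTM: derivative bounds, the function `Psi`, scaling.
-/

set_option autoImplicit false

namespace Pool.Agent.Helper21.PM

open MeasureTheory Filter
open Pool.Agent.Helper95.PW
open Pool.Agent.Helper21.PW

/-! ### `pd` and iterated derivatives -/

theorem pd_it {g : R3 → ℝ} (hg : ContDiff ℝ (⊤ : ℕ∞) g) (i : Fin 3) (k : ℕ) (y : R3) :
    ‖iteratedFDeriv ℝ k (pd i g) y‖ ≤ ‖iteratedFDeriv ℝ (k + 1) g y‖ := by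
  have h1 : ContDiff ℝ (⊤ : ℕ∞) (fderiv ℝ g) := hg.fderiv_right (m := (⊤ : ℕ∞)) (by simp)
  have h := norm_iteratedFDeriv_clm_apply_const (𝕜 := ℝ) (f := fderiv ℝ g)
    (c := (Pi.single i 1 : R3)) (x := y) (N := ((⊤ : ℕ∞) : WithTop ℕ∞)) (n := k)
    h1.contDiffAt (by exact_mod_cast le_top)
  rw [norm_iteratedFDeriv_fderiv] at h
  have hn : ‖(Pi.single i 1 : R3)‖ = 1 := by
    rw [Pi.norm_single]; simp
  rw [hn, one_mul] at h
  exact h

theorem pd_1 {g : R3 → ℝ} (hg : ContDiff ℝ (⊤ : ℕ∞) g) (i : Fin 3) (y : R3) :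
    |pd i g y| ≤ ‖iteratedFDeriv ℝ 1 g y‖ := by
  have h := pd_it hg i 0 y
  rwa [norm_iteratedFDeriv_zero] at h

theorem pd_2 {g : R3 → ℝ} (hg : ContDiff ℝ (⊤ : ℕ∞) g) (i j : Fin 3) (y : R3) :
    |pd i (pd j g) y| ≤ ‖iteratedFDeriv ℝ 2 g y‖ :=
  (pd_1 (pd_cd j hg) i y).trans (pd_it hg j 1 y)

theorem pd_3 {g : R3 → ℝ} (hg : ContDiff ℝ (⊤ : ℕ∞) g) (i j l : Fin 3) (y : R3) :
    |pd i (pd j (pd l g)) y| ≤ ‖iteratedFDeriv ℝ 3 g y‖ :=
  (pd_2 (pd_cd l hg) i j y).trans (pd_it hg l 2 y)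

theorem pd_4 {g : R3 → ℝ} (hg : ContDiff ℝ (⊤ : ℕ∞) g) (i j l m : Fin 3) (y : R3) :
    |pd i (pd j (pd l (pd m g))) y| ≤ ‖iteratedFDeriv ℝ 4 g y‖ :=
  (pd_3 (pd_cd m hg) i j l y).trans (pd_it hg m 3 y)

/-- bounds at scale one -/
theorem scale_one {g : R3 → ℝ} {K : ℝ} (hg : ContDiff ℝ (⊤ : ℕ∞) g) (hc : HasCompactSupport g)
    (h : ∀ k : ℕ, 1 ≤ k → k ≤ 4 → ∀ y, ‖iteratedFDeriv ℝ k g y‖ ≤ K) : Scale g K 1 where
  sm := hg
  cs := hc
  d1 i y := (pd_1 hg i y).trans (h 1 le_rfl (by norm_num) y)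
  d2 i j y := by
    rw [div_one]; exact (pd_2 hg i j y).trans (h 2 (by norm_num) (by norm_num) y)
  d3 i j l y := by
    rw [one_pow, div_one]; exact (pd_3 hg i j l y).trans (h 3 (by norm_num) (by norm_num) y)
  d4 i j l m y := by
    rw [one_pow, div_one]; exact (pd_4 hg i j l m y).trans (h 4 (by norm_num) (by norm_num) y)

/-! ### scaling -/

theorem pd_smul (i : Fin 3) (g : R3 → ℝ) (a c : ℝ) (y : R3) :
    pd i (fun z => a * g (c • z)) y = a * (c * pd i g (c • y)) := by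
  unfold pd
  rcases eq_or_ne c 0 with rfl | hc
  · simp
  have h1 : fderiv ℝ (fun z : R3 => g (c • z)) y = c • fderiv ℝ g (c • y) := fderiv_comp_smul _
  have h2 : fderiv ℝ (fun z : R3 => a * g (c • z)) y = a • fderiv ℝ (fun z : R3 => g (c • z)) y := by
    exact congrFun (fderiv_const_smul_field (𝕜 := ℝ) (f := fun z : R3 => g (c • z)) a) y
  rw [h2, h1]
  simp

theorem scale_R {g : R3 → ℝ} {K R : ℝ} (hR : 0 < R) (h : Scale g K 1) :
    Scale (fun y => R * g (R⁻¹ • y)) K R where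
  sm := contDiff_const.mul (h.sm.comp (contDiff_const_smul R⁻¹))
  cs := by
    have h1 : HasCompactSupport (fun y : R3 => g (R⁻¹ • y)) :=
      h.cs.comp_smul (inv_ne_zero hR.ne')
    exact h1.mul_left
  d1 i y := by
    rw [pd_smul]
    have h1 := h.d1 i (R⁻¹ • y)
    rw [← mul_assoc, mul_inv_cancel₀ hR.ne', one_mul]
    exact h1
  d2 i j y := by
    have e : pd j (fun y => R * g (R⁻¹ • y)) = fun y => 1 * (pd j g (R⁻¹ • y)) := by
      funext y
      rw [pd_smul, ← mul_assoc, mul_inv_cancel₀ hR.ne']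
    rw [e, pd_smul]
    have h1 := h.d2 i j (R⁻¹ • y)
    rw [div_one] at h1
    rw [one_mul, abs_mul, abs_of_pos (inv_pos.2 hR), div_eq_inv_mul]
    exact mul_le_mul_of_nonneg_left h1 (inv_pos.2 hR).le
  d3 i j l y := by
    have e : pd l (fun y => R * g (R⁻¹ • y)) = fun y => 1 * (pd l g (R⁻¹ • y)) := by
      funext y
      rw [pd_smul, ← mul_assoc, mul_inv_cancel₀ hR.ne']
    have e2 : pd j (fun y => 1 * (pd l g (R⁻¹ • y))) =
        fun y => R⁻¹ * (pd j (pd l g) (R⁻¹ • y)) := by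
      funext y
      rw [pd_smul, one_mul]
    rw [e, e2, pd_smul]
    have h1 := h.d3 i j l (R⁻¹ • y)
    rw [one_pow, div_one] at h1
    rw [← mul_assoc, abs_mul, div_eq_inv_mul]
    have e3 : |R⁻¹ * R⁻¹| = (R ^ 2)⁻¹ := by
      rw [abs_of_pos (by positivity)]; field_simp
    rw [e3]
    exact mul_le_mul_of_nonneg_left h1 (by positivity)
  d4 i j l m y := by
    have e : pd m (fun y => R * g (R⁻¹ • y)) = fun y => 1 * (pd m g (R⁻¹ • y)) := by
      funext y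
      rw [pd_smul, ← mul_assoc, mul_inv_cancel₀ hR.ne']
    have e2 : pd l (fun y => 1 * (pd m g (R⁻¹ • y))) =
        fun y => R⁻¹ * (pd l (pd m g) (R⁻¹ • y)) := by
      funext y
      rw [pd_smul, one_mul]
    have e3 : pd j (fun y => R⁻¹ * (pd l (pd m g) (R⁻¹ • y))) =
        fun y => (R⁻¹ * R⁻¹) * (pd j (pd l (pd m g)) (R⁻¹ • y)) := by
      funext y
      rw [pd_smul, mul_assoc]
    rw [e, e2, e3, pd_smul]
    have h1 := h.d4 i j l m (R⁻¹ • y)
    rw [one_pow, div_one] at h1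
    rw [← mul_assoc, abs_mul, div_eq_inv_mul]
    have e4 : |R⁻¹ * R⁻¹ * R⁻¹| = (R ^ 3)⁻¹ := by
      rw [abs_of_pos (by positivity)]; field_simp
    rw [e4]
    exact mul_le_mul_of_nonneg_left h1 (by positivity)

theorem nr_smul {c : ℝ} (hc : 0 ≤ c) (y : R3) : nr (c • y) = c * nr y := by
  unfold nr
  have e : (c • y) 0 ^ 2 + (c • y) 1 ^ 2 + (c • y) 2 ^ 2 = c ^ 2 * (y 0 ^ 2 + y 1 ^ 2 + y 2 ^ 2) := by
    simp only [Pi.smul_apply, smul_eq_mul]; ring
  rw [e, Real.sqrt_mul (sq_nonneg c), Real.sqrt_sq hc]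

/-- reduction to `R = 1` -/
theorem cut_scale {M : ℕ} {X : Fin M → R3} {m : Fin 3} {K R : ℝ} {g : R3 → ℝ} (hR : 0 < R)
    (h : IsCut (fun j => R⁻¹ • X j) m K 1 g) : IsCut X m K R (fun y => R * g (R⁻¹ • y)) where
  sc := scale_R hR h.sc
  near j y hy i := by
    rw [pd_smul, ← mul_assoc, mul_inv_cancel₀ hR.ne', one_mul]
    apply h.near j (R⁻¹ • y)
    rw [← smul_sub, nr_smul (inv_pos.2 hR).le, inv_mul_le_iff₀ hR, mul_one]
    exact hy
  far y hy := by
    have h1 : g (R⁻¹ • y) = 0 := by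
      apply h.far
      intro j
      rw [← smul_sub, nr_smul (inv_pos.2 hR).le, lt_inv_mul_iff₀ hR]
      have := hy j
      linarith
    rw [h1, mul_zero]

/-! ### the function `Psi` -/

/-- smooth step -/
noncomputable def TT (t : ℝ) : ℝ := Real.smoothTransition t

theorem TT_cd : ContDiff ℝ (⊤ : ℕ∞) TT := Real.smoothTransition.contDiff

theorem TT_cs : HasCompactSupport (fderiv ℝ TT) := by
  refine HasCompactSupport.intro (K := Set.Icc (0 : ℝ) 1) isCompact_Icc fun t ht => ?_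
  rw [Set.mem_Icc, not_and_or, not_le, not_le] at ht
  rcases ht with h | h
  · have e : TT =ᶠ[nhds t] fun _ => 0 := by
      filter_upwards [Iio_mem_nhds h] with z hz
      exact Real.smoothTransition.zero_of_nonpos (le_of_lt hz)
    rw [e.fderiv_eq]; simp
  · have e : TT =ᶠ[nhds t] fun _ => 1 := by
      filter_upwards [Ioi_mem_nhds h] with z hz
      exact Real.smoothTransition.one_of_one_le (le_of_lt hz)
    rw [e.fderiv_eq]; simp

theorem TT_bd : ∃ C : ℝ, 1 ≤ C ∧ ∀ k : ℕ, k ≤ 4 → ∀ t, ‖iteratedFDeriv ℝ k TT t‖ ≤ C := by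
  have h : ∀ k : ℕ, ∃ C : ℝ, ∀ t, ‖iteratedFDeriv ℝ k TT t‖ ≤ C := by
    intro k
    rcases k with _ | k
    · refine ⟨1, fun t => ?_⟩
      rw [norm_iteratedFDeriv_zero, Real.norm_eq_abs, abs_le]
      exact ⟨by linarith [Real.smoothTransition.nonneg t, show TT t = Real.smoothTransition t from rfl],
        Real.smoothTransition.le_one t⟩
    · have h1 : ContDiff ℝ (⊤ : ℕ∞) (fderiv ℝ TT) := TT_cd.fderiv_right (m := (⊤ : ℕ∞)) (by simp)
      obtain ⟨C, hC⟩ := (TT_cs.iteratedFDeriv (𝕜 := ℝ) k).exists_bound_of_continuous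
        (h1.continuous_iteratedFDeriv (by exact_mod_cast le_top))
      refine ⟨C, fun t => ?_⟩
      rw [← norm_iteratedFDeriv_fderiv]
      exact hC t
  choose C hC using h
  refine ⟨1 + ∑ k ∈ Finset.range 5, |C k|, ?_, fun k hk t => ?_⟩
  · have : 0 ≤ ∑ k ∈ Finset.range 5, |C k| := Finset.sum_nonneg fun _ _ => abs_nonneg _
    linarith
  · have h1 : |C k| ≤ ∑ k ∈ Finset.range 5, |C k| :=
      Finset.single_le_sum (f := fun k => |C k|) (fun _ _ => abs_nonneg _)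
        (Finset.mem_range.2 (by omega))
    have := hC k t
    have := le_abs_self (C k)
    linarith

/-- composition of the step with a function whose derivatives are bounded by `A >= 1` -/
theorem TT_comp {E : Type} [NormedAddCommGroup E] [NormedSpace ℝ E] {C A : ℝ}
    (hC : ∀ k : ℕ, k ≤ 4 → ∀ t, ‖iteratedFDeriv ℝ k TT t‖ ≤ C) (hA : 1 ≤ A) {f : E → ℝ}
    (hf : ContDiff ℝ (⊤ : ℕ∞) f)
    (h : ∀ k : ℕ, 1 ≤ k → k ≤ 4 → ∀ y, ‖iteratedFDeriv ℝ k f y‖ ≤ A) (k : ℕ) (hk : k ≤ 4)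
    (y : E) : ‖iteratedFDeriv ℝ k (fun y => TT (f y)) y‖ ≤ 24 * C * A ^ k := by
  have h1 := norm_iteratedFDeriv_comp_le (𝕜 := ℝ) (g := TT) (f := f) (n := k)
    (N := ((⊤ : ℕ∞) : WithTop ℕ∞)) TT_cd hf (by exact_mod_cast le_top) y (C := C) (D := A)
    (fun i hi => hC i (hi.trans hk) (f y)) (fun i hi1 hi => by
      refine (h i hi1 (hi.trans hk) y).trans ?_
      exact le_self_pow₀ hA (by omega))
  have e : TT ∘ f = fun y => TT (f y) := rfl
  rw [e] at h1
  have hC0 : 0 ≤ C := (norm_nonneg _).trans (hC 0 (by norm_num) 0)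
  have hf2 : (k.factorial : ℝ) ≤ 24 := by
    have : k.factorial ≤ Nat.factorial 4 := Nat.factorial_le hk
    have e4 : Nat.factorial 4 = 24 := rfl
    rw [e4] at this
    exact_mod_cast this
  refine h1.trans ?_
  apply mul_le_mul_of_nonneg_right _ (by positivity)
  exact mul_le_mul_of_nonneg_right hf2 hC0

/-- bump around the origin of space -/
noncomputable def ch (y : R3) : ℝ := TT (3 - (y 0 ^ 2 + y 1 ^ 2 + y 2 ^ 2))

theorem ch_cd : ContDiff ℝ (⊤ : ℕ∞) ch := by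
  have h : ContDiff ℝ (⊤ : ℕ∞) (fun y : R3 => 3 - (y 0 ^ 2 + y 1 ^ 2 + y 2 ^ 2)) := by fun_prop
  exact TT_cd.comp h

theorem ch_zero {y : R3} (hy : 2 < nr y) : ch y = 0 := by
  apply Real.smoothTransition.zero_of_nonpos
  have h := nr_sq y
  nlinarith

theorem ch_one {y : R3} (hy : y 0 ^ 2 + y 1 ^ 2 + y 2 ^ 2 < 2) : ch y = 1 := by
  apply Real.smoothTransition.one_of_one_le
  linarith

theorem ch_nn (y : R3) : 0 ≤ ch y := Real.smoothTransition.nonneg _

theorem ch_cs : HasCompactSupport ch := by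
  refine HasCompactSupport.intro (K := Metric.closedBall (0 : R3) 2) (isCompact_closedBall _ _)
    fun y hy => ?_
  apply Real.smoothTransition.zero_of_nonpos
  rw [mem_closedBall_zero_iff, not_le] at hy
  by_contra h
  apply absurd hy
  rw [not_lt, pi_norm_le_iff_of_nonneg (by norm_num)]
  intro i
  rw [Real.norm_eq_abs]
  apply abs_le_of_sq_le_sq _ (by norm_num)
  have h' : 0 < 3 - (y 0 ^ 2 + y 1 ^ 2 + y 2 ^ 2) := by linarith [not_le.1 h]
  fin_cases i
  · simp only [Fin.zero_eta]; nlinarith [sq_nonneg (y 1), sq_nonneg (y 2)]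
  · simp only [Fin.mk_one]; nlinarith [sq_nonneg (y 0), sq_nonneg (y 2)]
  · simp only [Fin.reduceFinMk]; nlinarith [sq_nonneg (y 0), sq_nonneg (y 1)]

theorem ch_bd : ∃ C : ℝ, 1 ≤ C ∧ ∀ k : ℕ, k ≤ 4 → ∀ y, ‖iteratedFDeriv ℝ k ch y‖ ≤ C := by
  have h : ∀ k : ℕ, ∃ C : ℝ, ∀ t, ‖iteratedFDeriv ℝ k ch t‖ ≤ C := fun k =>
    (ch_cs.iteratedFDeriv (𝕜 := ℝ) k).exists_bound_of_continuous
      (ch_cd.continuous_iteratedFDeriv (by exact_mod_cast le_top))
  choose C hC using h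
  refine ⟨1 + ∑ k ∈ Finset.range 5, |C k|, ?_, fun k hk t => ?_⟩
  · have : 0 ≤ ∑ k ∈ Finset.range 5, |C k| := Finset.sum_nonneg fun _ _ => abs_nonneg _
    linarith
  · have h1 : |C k| ≤ ∑ k ∈ Finset.range 5, |C k| :=
      Finset.single_le_sum (f := fun k => |C k|) (fun _ _ => abs_nonneg _)
        (Finset.mem_range.2 (by omega))
    have := hC k t
    have := le_abs_self (C k)
    linarith

/-- sum of the bumps -/
noncomputable def sch {M : ℕ} (X : Fin M → R3) (y : R3) : ℝ := ∑ j, ch (y - X j)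

theorem sch_cd {M : ℕ} (X : Fin M → R3) : ContDiff ℝ (⊤ : ℕ∞) (sch X) := by
  unfold sch
  exact ContDiff.sum fun j _ => ch_cd.comp (contDiff_id.sub contDiff_const)

theorem sch_bd {M : ℕ} (X : Fin M → R3) {C : ℝ}
    (hC : ∀ k : ℕ, k ≤ 4 → ∀ y, ‖iteratedFDeriv ℝ k ch y‖ ≤ C) (k : ℕ) (hk : k ≤ 4) (y : R3) :
    ‖iteratedFDeriv ℝ k (sch X) y‖ ≤ M * C := by
  unfold sch
  rw [iteratedFDeriv_fun_sum_apply (fun j _ => by
    exact ((ch_cd.comp (contDiff_id.sub contDiff_const)).of_le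
      (by exact_mod_cast le_top)).contDiffAt)]
  refine (norm_sum_le _ _).trans ?_
  refine (Finset.sum_le_card_nsmul _ _ C fun j _ => ?_).trans_eq ?_
  · rw [iteratedFDeriv_comp_sub]
    exact hC k hk _
  · simp

/-- cut off near the nuclei -/
noncomputable def Psi {M : ℕ} (X : Fin M → R3) (y : R3) : ℝ := TT (sch X y)

theorem Psi_cd {M : ℕ} (X : Fin M → R3) : ContDiff ℝ (⊤ : ℕ∞) (Psi X) := TT_cd.comp (sch_cd X)

theorem Psi_nn {M : ℕ} (X : Fin M → R3) (y : R3) : 0 ≤ Psi X y := Real.smoothTransition.nonneg _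

theorem Psi_le {M : ℕ} (X : Fin M → R3) (y : R3) : Psi X y ≤ 1 := Real.smoothTransition.le_one _

theorem Psi_far {M : ℕ} (X : Fin M → R3) (y : R3) (hy : ∀ j, 2 < nr (y - X j)) : Psi X y = 0 := by
  apply Real.smoothTransition.zero_of_nonpos
  apply le_of_eq
  exact Finset.sum_eq_zero fun j _ => ch_zero (hy j)

theorem Psi_one {M : ℕ} (X : Fin M → R3) (y : R3) (j : Fin M)
    (hy : (y - X j) 0 ^ 2 + (y - X j) 1 ^ 2 + (y - X j) 2 ^ 2 < 2) : Psi X y = 1 := by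
  apply Real.smoothTransition.one_of_one_le
  have h := Finset.single_le_sum (f := fun j => ch (y - X j)) (fun j _ => ch_nn _)
    (Finset.mem_univ j)
  rw [← ch_one hy]
  exact h

/-- `Psi = 1` in a neighbourhood of the closed unit balls -/
theorem Psi_near {M : ℕ} (X : Fin M → R3) (y : R3) (j : Fin M) (hy : nr (y - X j) ≤ 1) :
    Psi X =ᶠ[nhds y] fun _ => 1 := by
  have hc : Continuous (fun z : R3 => (z - X j) 0 ^ 2 + (z - X j) 1 ^ 2 + (z - X j) 2 ^ 2) := by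
    simp only [Pi.sub_apply]
    fun_prop
  have h2 : (y - X j) 0 ^ 2 + (y - X j) 1 ^ 2 + (y - X j) 2 ^ 2 < 2 := by
    rw [← nr_sq]
    have : 0 ≤ nr (y - X j) := Real.sqrt_nonneg _
    nlinarith
  filter_upwards [(isOpen_lt hc continuous_const).mem_nhds h2] with z hz
  exact Psi_one X z j hz

theorem sch_cs {M : ℕ} (X : Fin M → R3) : HasCompactSupport (sch X) := by
  have h : ∀ s : Finset (Fin M), HasCompactSupport (fun y => ∑ j ∈ s, ch (y - X j)) := by
    intro s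
    induction s using Finset.induction_on with
    | empty =>
      simp only [Finset.sum_empty]
      exact (HasCompactSupport.zero : HasCompactSupport (0 : R3 → ℝ))
    | insert a s ha ih =>
      simp only [Finset.sum_insert ha]
      have h1 : HasCompactSupport (fun y => ch (y - X a)) := by
        have h2 := ch_cs.comp_homeomorph (Homeomorph.subRight (X a))
        exact h2
      exact h1.add ih
  exact h Finset.univ

theorem Psi_cs {M : ℕ} (X : Fin M → R3) : HasCompactSupport (Psi X) :=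
  (sch_cs X).comp_left (g := TT) (Real.smoothTransition.zero_of_nonpos le_rfl)

/-- derivative bounds of `Psi` -/
theorem Psi_bd : ∃ C : ℝ, 1 ≤ C ∧ ∀ (M : ℕ) (X : Fin M → R3) (k : ℕ), k ≤ 4 → ∀ y,
    ‖iteratedFDeriv ℝ k (Psi X) y‖ ≤ C * ((M : ℝ) + 1) ^ k := by
  obtain ⟨C1, h11, h1⟩ := TT_bd
  obtain ⟨C2, h21, h2⟩ := ch_bd
  refine ⟨24 * C1 * C2 ^ 4, ?_, fun M X k hk y => ?_⟩
  · have := one_le_pow₀ h21 (n := 4)
    nlinarith
  · have hM : (0 : ℝ) ≤ M := Nat.cast_nonneg M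
    have hA : 1 ≤ C2 * ((M : ℝ) + 1) := by nlinarith
    have h3 := TT_comp h1 hA (sch_cd X) (fun k _ hk y =>
      (sch_bd X h2 k hk y).trans (by nlinarith)) k hk y
    refine h3.trans ?_
    rw [mul_pow, ← mul_assoc]
    apply mul_le_mul_of_nonneg_right _ (by positivity)
    exact mul_le_mul_of_nonneg_left (pow_le_pow_right₀ h21 hk) (by positivity)

end Pool.Agent.Helper21.PM
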