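import Pool.Agent.Helper21.PM.CutPsi

/-!
PM, row CUTM: the staircase and the cut off function.
-/

set_option autoImplicit false

namespace Pool.Agent.Helper21.PM

open MeasureTheory Filter
open Pool.Agent.Helper95.PW
open Pool.Agent.Helper21.PW

/-- bump on the line -/
noncomputable def ta (t : ℝ) : ℝ := TT (3 - t ^ 2)

theorem ta_cd : ContDiff ℝ (⊤ : ℕ∞) ta := by
  have h : ContDiff ℝ (⊤ : ℕ∞) (fun y : ℝ => 3 - y ^ 2) := by fun_prop
  exact TT_cd.comp h

theorem ta_nn (t : ℝ) : 0 ≤ ta t := Real.smoothTransition.nonneg _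

theorem ta_zero {t : ℝ} (h : 2 < |t|) : ta t = 0 := by
  apply Real.smoothTransition.zero_of_nonpos
  have : |t| ^ 2 = t ^ 2 := sq_abs t
  nlinarith [abs_nonneg t]

theorem ta_one {t : ℝ} (h : |t| ≤ 1) : ta t = 1 := by
  apply Real.smoothTransition.one_of_one_le
  have : |t| ^ 2 = t ^ 2 := sq_abs t
  nlinarith [abs_nonneg t]

theorem ta_cs : HasCompactSupport ta := by
  refine HasCompactSupport.intro (K := Set.Icc (-2 : ℝ) 2) isCompact_Icc fun y hy => ?_
  apply ta_zero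
  by_contra h
  exact hy (Set.mem_Icc.2 (abs_le.1 (not_lt.1 h)))

theorem ta_bd : ∃ C : ℝ, 1 ≤ C ∧ ∀ k : ℕ, k ≤ 4 → ∀ y, ‖iteratedFDeriv ℝ k ta y‖ ≤ C := by
  have h : ∀ k : ℕ, ∃ C : ℝ, ∀ t, ‖iteratedFDeriv ℝ k ta t‖ ≤ C := fun k =>
    (ta_cs.iteratedFDeriv (𝕜 := ℝ) k).exists_bound_of_continuous
      (ta_cd.continuous_iteratedFDeriv (by exact_mod_cast le_top))
  choose C hC using h
  refine ⟨1 + ∑ k ∈ Finset.range 5, |C k|, ?_, fun k hk t => ?_⟩
  · have : 0 ≤ ∑ k ∈ Finset.range 5, |C k| := Finset.sum_nonneg fun _ _ => abs_nonneg _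
    linarith
  · have h1 : |C k| ≤ ∑ k ∈ Finset.range 5, |C k| :=
      Finset.single_le_sum (f := fun k => |C k|) (fun _ _ => abs_nonneg _)
        (Finset.mem_range.2 (by omega))
    have := hC k t
    have := le_abs_self (C k)
    linarith

/-- sum of bumps at the projections -/
noncomputable def sta {M : ℕ} (a : Fin M → ℝ) (t : ℝ) : ℝ := ∑ j, ta (t - a j)

theorem sta_cd {M : ℕ} (a : Fin M → ℝ) : ContDiff ℝ (⊤ : ℕ∞) (sta a) := by
  unfold sta
  exact ContDiff.sum fun j _ => ta_cd.comp (contDiff_id.sub contDiff_const)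

theorem sta_bd {M : ℕ} (a : Fin M → ℝ) {C : ℝ}
    (hC : ∀ k : ℕ, k ≤ 4 → ∀ y, ‖iteratedFDeriv ℝ k ta y‖ ≤ C) (k : ℕ) (hk : k ≤ 4) (y : ℝ) :
    ‖iteratedFDeriv ℝ k (sta a) y‖ ≤ M * C := by
  unfold sta
  rw [iteratedFDeriv_fun_sum_apply (fun j _ => by
    exact ((ta_cd.comp (contDiff_id.sub contDiff_const)).of_le
      (by exact_mod_cast le_top)).contDiffAt)]
  refine (norm_sum_le _ _).trans ?_
  refine (Finset.sum_le_card_nsmul _ _ C fun j _ => ?_).trans_eq ?_
  · rw [iteratedFDeriv_comp_sub]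
    exact hC k hk _
  · simp

theorem sta_cs {M : ℕ} (a : Fin M → ℝ) : HasCompactSupport (sta a) := by
  have h : ∀ s : Finset (Fin M), HasCompactSupport (fun y => ∑ j ∈ s, ta (y - a j)) := by
    intro s
    induction s using Finset.induction_on with
    | empty =>
      simp only [Finset.sum_empty]
      exact (HasCompactSupport.zero : HasCompactSupport (0 : ℝ → ℝ))
    | insert b s hb ih =>
      simp only [Finset.sum_insert hb]
      have h1 : HasCompactSupport (fun y => ta (y - a b)) := by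
        have h2 := ta_cs.comp_homeomorph (Homeomorph.subRight (a b))
        exact h2
      exact h1.add ih
  exact h Finset.univ

/-- derivative of the staircase -/
noncomputable def th {M : ℕ} (a : Fin M → ℝ) (t : ℝ) : ℝ := TT (sta a t)

theorem th_cd {M : ℕ} (a : Fin M → ℝ) : ContDiff ℝ (⊤ : ℕ∞) (th a) := TT_cd.comp (sta_cd a)

theorem th_cs {M : ℕ} (a : Fin M → ℝ) : HasCompactSupport (th a) :=
  (sta_cs a).comp_left (g := TT) (Real.smoothTransition.zero_of_nonpos le_rfl)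

theorem th_nn {M : ℕ} (a : Fin M → ℝ) (t : ℝ) : 0 ≤ th a t := Real.smoothTransition.nonneg _

theorem th_le {M : ℕ} (a : Fin M → ℝ) (t : ℝ) : th a t ≤ 1 := Real.smoothTransition.le_one _

theorem th_one {M : ℕ} (a : Fin M → ℝ) (t : ℝ) (j : Fin M) (h : |t - a j| ≤ 1) : th a t = 1 := by
  apply Real.smoothTransition.one_of_one_le
  have h1 := Finset.single_le_sum (f := fun j => ta (t - a j)) (fun j _ => ta_nn _)
    (Finset.mem_univ j)
  rw [← ta_one h]
  exact h1

theorem th_bd : ∃ C : ℝ, 1 ≤ C ∧ ∀ (M : ℕ) (a : Fin M → ℝ) (k : ℕ), k ≤ 4 → ∀ y,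
    ‖iteratedFDeriv ℝ k (th a) y‖ ≤ C * ((M : ℝ) + 1) ^ k := by
  obtain ⟨C1, h11, h1⟩ := TT_bd
  obtain ⟨C2, h21, h2⟩ := ta_bd
  refine ⟨24 * C1 * C2 ^ 4, ?_, fun M a k hk y => ?_⟩
  · have := one_le_pow₀ h21 (n := 4)
    nlinarith
  · have hM : (0 : ℝ) ≤ M := Nat.cast_nonneg M
    have hA : 1 ≤ C2 * ((M : ℝ) + 1) := by nlinarith
    have h3 := TT_comp h1 hA (sta_cd a) (fun k _ hk y =>
      (sta_bd a h2 k hk y).trans (by nlinarith)) k hk y
    refine h3.trans ?_
    rw [mul_pow, ← mul_assoc]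
    apply mul_le_mul_of_nonneg_right _ (by positivity)
    exact mul_le_mul_of_nonneg_left (pow_le_pow_right₀ h21 hk) (by positivity)

theorem th_ind {M : ℕ} (a : Fin M → ℝ) (t : ℝ) :
    th a t ≤ ∑ j, Set.indicator (Set.Icc (a j - 2) (a j + 2)) (fun _ => (1 : ℝ)) t := by
  have hnn : ∀ j ∈ (Finset.univ : Finset (Fin M)),
      0 ≤ Set.indicator (Set.Icc (a j - 2) (a j + 2)) (fun _ => (1 : ℝ)) t := fun j _ =>
    Set.indicator_nonneg (fun _ _ => zero_le_one) _
  by_cases h : ∃ j, |t - a j| ≤ 2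
  · obtain ⟨j, hj⟩ := h
    refine (th_le a t).trans ?_
    refine le_trans ?_ (Finset.single_le_sum hnn (Finset.mem_univ j))
    rw [Set.indicator_of_mem]
    rw [abs_le] at hj
    exact Set.mem_Icc.2 ⟨by linarith, by linarith⟩
  · push Not at h
    have h0 : sta a t = 0 := Finset.sum_eq_zero fun j _ => ta_zero (h j)
    have h1 : th a t = 0 := by
      unfold th
      rw [h0]
      exact Real.smoothTransition.zero_of_nonpos le_rfl
    rw [h1]
    exact Finset.sum_nonneg hnn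

theorem th_int {M : ℕ} (a : Fin M → ℝ) : ∫ t, th a t ≤ 4 * M := by
  have hi : ∀ j : Fin M, Integrable
      (Set.indicator (Set.Icc (a j - 2) (a j + 2)) (fun _ => (1 : ℝ))) := fun j => by
    rw [integrable_indicator_iff measurableSet_Icc]
    exact integrableOn_const (by simp)
  have h1 : ∫ t, th a t ≤
      ∫ t, ∑ j, Set.indicator (Set.Icc (a j - 2) (a j + 2)) (fun _ => (1 : ℝ)) t :=
    integral_mono ((th_cd a).continuous.integrable_of_hasCompactSupport (th_cs a))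
      (integrable_finset_sum _ fun j _ => hi j) (fun t => th_ind a t)
  refine h1.trans ?_
  rw [integral_finset_sum _ fun j _ => hi j]
  refine le_of_eq ?_
  have h2 : ∀ j : Fin M, ∫ t, Set.indicator (Set.Icc (a j - 2) (a j + 2)) (fun _ => (1 : ℝ)) t = 4 :=
    fun j => by
    rw [integral_indicator measurableSet_Icc, setIntegral_const]
    simp only [smul_eq_mul, mul_one]
    rw [measureReal_def, Real.volume_Icc, ENNReal.toReal_ofReal (by linarith)]
    ring
  simp only [h2]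
  simp
  ring

/-- staircase -/
noncomputable def sc {M : ℕ} (a : Fin M → ℝ) (t : ℝ) : ℝ := ∫ τ in (0 : ℝ)..t, th a τ

theorem sc_der {M : ℕ} (a : Fin M → ℝ) (t : ℝ) : HasDerivAt (sc a) (th a t) t :=
  intervalIntegral.integral_hasDerivAt_right ((th_cd a).continuous.intervalIntegrable _ _)
    ((th_cd a).continuous.stronglyMeasurableAtFilter _ _) (th_cd a).continuous.continuousAt

theorem sc_deriv {M : ℕ} (a : Fin M → ℝ) : deriv (sc a) = th a :=
  funext fun t => (sc_der a t).deriv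

theorem sc_cd {M : ℕ} (a : Fin M → ℝ) : ContDiff ℝ (⊤ : ℕ∞) (sc a) := by
  rw [contDiff_infty_iff_deriv]
  refine ⟨fun t => (sc_der a t).differentiableAt, ?_⟩
  rw [sc_deriv]
  exact th_cd a

theorem sc_abs {M : ℕ} (a : Fin M → ℝ) (t : ℝ) : |sc a t| ≤ 4 * M := by
  have h := intervalIntegral.norm_integral_le_integral_norm_uIoc (f := th a) (a := 0) (b := t)
    (μ := volume)
  rw [Real.norm_eq_abs] at h
  refine h.trans ?_
  have h2 : ∀ τ, ‖th a τ‖ = th a τ := fun τ => by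
    rw [Real.norm_eq_abs, abs_of_nonneg (th_nn a τ)]
  simp only [h2]
  refine (setIntegral_le_integral ((th_cd a).continuous.integrable_of_hasCompactSupport
    (th_cs a)) (Eventually.of_forall fun τ => th_nn a τ)).trans (th_int a)

theorem sc_it {M : ℕ} (a : Fin M → ℝ) (k : ℕ) (t : ℝ) :
    ‖iteratedFDeriv ℝ (k + 1) (sc a) t‖ = ‖iteratedFDeriv ℝ k (th a) t‖ := by
  rw [norm_iteratedFDeriv_eq_norm_iteratedDeriv, norm_iteratedFDeriv_eq_norm_iteratedDeriv,
    iteratedDeriv_succ', sc_deriv]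

/-- staircase in space -/
theorem scp_cd {M : ℕ} (a : Fin M → ℝ) (m : Fin 3) :
    ContDiff ℝ (⊤ : ℕ∞) (fun y : R3 => sc a (y m)) :=
  (sc_cd a).comp (contDiff_apply ℝ ℝ m)

theorem scp_it {M : ℕ} (a : Fin M → ℝ) (m : Fin 3) (k : ℕ) (y : R3) :
    ‖iteratedFDeriv ℝ k (fun y : R3 => sc a (y m)) y‖ ≤ ‖iteratedFDeriv ℝ k (sc a) (y m)‖ := by
  let L : R3 →L[ℝ] ℝ := ContinuousLinearMap.proj (R := ℝ) (φ := fun _ : Fin 3 => ℝ) m
  have h := L.iteratedFDeriv_comp_right (f := sc a) (sc_cd a) y (i := k)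
    (by exact_mod_cast le_top)
  have e : sc a ∘ L = fun y : R3 => sc a (y m) := rfl
  rw [e] at h
  rw [h]
  refine (ContinuousMultilinearMap.norm_compContinuousLinearMap_le _ _).trans ?_
  have hL : ‖L‖ ≤ 1 := L.opNorm_le_bound zero_le_one fun z => by
    rw [one_mul]; exact norm_le_pi_norm z m
  have h1 : ∏ _i : Fin k, ‖L‖ ≤ 1 := Finset.prod_le_one (fun _ _ => norm_nonneg _) fun _ _ => hL
  calc ‖iteratedFDeriv ℝ k (sc a) (L y)‖ * ∏ _i : Fin k, ‖L‖
      ≤ ‖iteratedFDeriv ℝ k (sc a) (L y)‖ * 1 := mul_le_mul_of_nonneg_left h1 (norm_nonneg _)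
    _ = ‖iteratedFDeriv ℝ k (sc a) (y m)‖ := by rw [mul_one]; rfl

theorem scp_bd : ∃ C : ℝ, 1 ≤ C ∧ ∀ (M : ℕ) (a : Fin M → ℝ) (m : Fin 3) (k : ℕ), k ≤ 4 →
    ∀ y : R3, ‖iteratedFDeriv ℝ k (fun y : R3 => sc a (y m)) y‖ ≤ C * ((M : ℝ) + 1) ^ (k + 1) := by
  obtain ⟨C, hC1, hC⟩ := th_bd
  refine ⟨4 * C, by linarith, fun M a m k hk y => ?_⟩
  have hM : (1 : ℝ) ≤ (M : ℝ) + 1 := by
    have : (0 : ℝ) ≤ M := Nat.cast_nonneg M
    linarith
  refine (scp_it a m k y).trans ?_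
  rcases k with _ | k
  · rw [norm_iteratedFDeriv_zero, Real.norm_eq_abs, zero_add, pow_one]
    refine (sc_abs a _).trans ?_
    nlinarith
  · rw [sc_it]
    refine (hC M a k (by omega) _).trans ?_
    have h1 : ((M : ℝ) + 1) ^ k ≤ ((M : ℝ) + 1) ^ (k + 1 + 1) := pow_le_pow_right₀ hM (by omega)
    have h2 : 0 < ((M : ℝ) + 1) ^ (k + 1 + 1) := by positivity
    nlinarith

theorem pd_scp {M : ℕ} (a : Fin M → ℝ) (m i : Fin 3) (y : R3) :
    pd i (fun z : R3 => sc a (z m)) y = if i = m then th a (y m) else 0 := by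
  have h1 := (sc_der a (y m)).hasFDerivAt
  have h2 := h1.comp y (hasfd_coord m y)
  have e : sc a ∘ (fun z : R3 => z m) = fun z : R3 => sc a (z m) := rfl
  rw [e] at h2
  unfold pd
  rw [h2.fderiv]
  by_cases h : i = m
  · subst h; simp
  · simp [h, Ne.symm h]

/-- row CUTM -/
theorem st_CUTM21 : ST_CUTM := by
  obtain ⟨C1, h11, h1⟩ := scp_bd
  obtain ⟨C2, h21, h2⟩ := Psi_bd
  refine ⟨16 * C1 * C2, by nlinarith, fun M X m R hR => ?_⟩
  suffices main : ∀ Y : Fin M → R3, IsCut Y m (16 * C1 * C2 * ((M : ℝ) + 1) ^ 6) 1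
      (fun y => sc (fun j => Y j m) (y m) * Psi Y y) from ⟨_, cut_scale hR (main _)⟩
  intro Y
  have hM : (1 : ℝ) ≤ (M : ℝ) + 1 := by
    have : (0 : ℝ) ≤ M := Nat.cast_nonneg M
    linarith
  refine ⟨scale_one ((scp_cd _ m).mul (Psi_cd Y)) ((Psi_cs Y).mul_left) ?_, ?_, ?_⟩
  · intro k _ hk y
    have h3 := norm_iteratedFDeriv_mul_le (scp_cd (fun j => Y j m) m) (Psi_cd Y) y (n := k)
      (by exact_mod_cast le_top)
    refine h3.trans ?_
    have h4 : ∀ i ∈ Finset.range (k + 1), (k.choose i : ℝ) *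
        ‖iteratedFDeriv ℝ i (fun y : R3 => sc (fun j => Y j m) (y m)) y‖ *
        ‖iteratedFDeriv ℝ (k - i) (Psi Y) y‖ ≤
        (k.choose i : ℝ) * (C1 * C2 * ((M : ℝ) + 1) ^ 6) := by
      intro i hi
      rw [Finset.mem_range] at hi
      rw [mul_assoc]
      apply mul_le_mul_of_nonneg_left _ (Nat.cast_nonneg _)
      have a1 := h1 M (fun j => Y j m) m i (by omega) y
      have a2 := h2 M Y (k - i) (by omega) y
      refine (mul_le_mul a1 a2 (norm_nonneg _) (by positivity)).trans ?_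
      have e : C1 * ((M : ℝ) + 1) ^ (i + 1) * (C2 * ((M : ℝ) + 1) ^ (k - i)) =
          C1 * C2 * ((M : ℝ) + 1) ^ (k + 1) := by
        have : k + 1 = (i + 1) + (k - i) := by omega
        rw [this, pow_add]; ring
      rw [e]
      exact mul_le_mul_of_nonneg_left (pow_le_pow_right₀ hM (by omega)) (by positivity)
    refine (Finset.sum_le_sum h4).trans ?_
    rw [← Finset.sum_mul]
    have h5 : (∑ i ∈ Finset.range (k + 1), (k.choose i : ℝ)) = 2 ^ k := by
      have := Nat.sum_range_choose k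
      exact_mod_cast this
    rw [h5]
    have h6 : (2 : ℝ) ^ k ≤ 16 := by
      calc (2 : ℝ) ^ k ≤ 2 ^ 4 := pow_le_pow_right₀ (by norm_num) hk
        _ = 16 := by norm_num
    have h7 : 0 ≤ C1 * C2 * ((M : ℝ) + 1) ^ 6 := by positivity
    calc (2 : ℝ) ^ k * (C1 * C2 * ((M : ℝ) + 1) ^ 6) ≤ 16 * (C1 * C2 * ((M : ℝ) + 1) ^ 6) :=
          mul_le_mul_of_nonneg_right h6 h7
      _ = 16 * C1 * C2 * ((M : ℝ) + 1) ^ 6 := by ring
  · intro j y hy i
    have e : (fun y => sc (fun j => Y j m) (y m) * Psi Y y) =ᶠ[nhds y]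
        fun y : R3 => sc (fun j => Y j m) (y m) := by
      filter_upwards [Psi_near Y y j hy] with z hz
      rw [hz, mul_one]
    unfold pd
    rw [e.fderiv_eq]
    have h3 := pd_scp (fun j => Y j m) m i y
    unfold pd at h3
    rw [h3]
    by_cases h : i = m
    · rw [if_pos h, if_pos h]
      apply th_one _ _ j
      have h5 : (y m - Y j m) ^ 2 ≤ nr (y - Y j) ^ 2 := by
        rw [nr_sq]
        simp only [Pi.sub_apply]
        fin_cases m
        · simp only [Fin.zero_eta]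
          nlinarith [sq_nonneg (y 1 - Y j 1), sq_nonneg (y 2 - Y j 2)]
        · simp only [Fin.mk_one]
          nlinarith [sq_nonneg (y 0 - Y j 0), sq_nonneg (y 2 - Y j 2)]
        · simp only [Fin.reduceFinMk]
          nlinarith [sq_nonneg (y 0 - Y j 0), sq_nonneg (y 1 - Y j 1)]
      have h6 : 0 ≤ nr (y - Y j) := Real.sqrt_nonneg _
      exact (abs_le_of_sq_le_sq h5 h6).trans hy
    · rw [if_neg h, if_neg h]
  · intro y hy
    rw [Psi_far Y y (fun j => by have := hy j; linarith), mul_zero]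

end Pool.Agent.Helper21.PM
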